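import Mathlib

set_option autoImplicit false

namespace Pool.Agent.Results.MP_9b093e_co.Unbounded

open Finset

/-- dominating broadcast. -/
def DomB {V : Type} (G : SimpleGraph V) (f : V → ℕ) : Prop :=
  (∀ v, ∃ u, f v ≤ G.dist v u) ∧ ∀ u, ∃ v, 1 ≤ f v ∧ G.dist v u ≤ f v

/-- dominating set. -/
def DomS {V : Type} (G : SimpleGraph V) (S : Set V) : Prop :=
  ∀ u, u ∈ S ∨ ∃ v ∈ S, G.Adj v u

/-- layers `0..k` are cliques, joined by matchings on the indices `< k`. -/
abbrev Vt (k : ℕ) : Type := {p : Fin (k + 1) × Fin (k + 1) // p ≠ (Fin.last k, Fin.last k)}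

def G0 (k : ℕ) : SimpleGraph (Vt k) := SimpleGraph.fromRel fun a b =>
  a.1.1 = b.1.1 ∨ (a.1.1.val + 1 = b.1.1.val ∧ a.1.2 = b.1.2 ∧ a.1.2.val < k)

def mk {k : ℕ} (t i : ℕ) (h : t ≤ k ∧ i ≤ k ∧ (t < k ∨ i < k)) : Vt k :=
  ⟨(⟨t, by omega⟩, ⟨i, by omega⟩), by simp [Fin.ext_iff]; omega⟩

theorem adj_iff {k : ℕ} (a b : Vt k) : (G0 k).Adj a b ↔
    (a.1.1.val = b.1.1.val ∧ a.1.2.val ≠ b.1.2.val) ∨
    ((a.1.1.val + 1 = b.1.1.val ∨ b.1.1.val + 1 = a.1.1.val) ∧ a.1.2.val = b.1.2.val ∧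
      a.1.2.val < k) := by
  simp only [G0, SimpleGraph.fromRel_adj, ne_eq, Subtype.ext_iff, Prod.ext_iff, Fin.ext_iff]
  omega

theorem up {k : ℕ} (i : ℕ) (hi : i < k) : ∀ t (ht : t ≤ k),
    ∃ p : (G0 k).Walk (mk 0 i (by omega)) (mk t i (by omega)), p.length = t := by
  intro t
  induction t with
  | zero => exact fun _ => ⟨.nil, rfl⟩
  | succ t ih =>
    intro ht
    obtain ⟨p, hp⟩ := ih (by omega)
    exact ⟨p.concat (by rw [adj_iff]; simp [mk, hi]), by simp [hp]⟩

theorem low {k : ℕ} (i : ℕ) {a b : Vt k} (p : (G0 k).Walk a b) :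
    b.1.1.val + (if b.1.2.val = i then 0 else 1) ≤
      a.1.1.val + (if a.1.2.val = i then 0 else 1) + p.length := by
  induction p with
  | nil => simp
  | cons h p ih =>
    rw [adj_iff] at h
    simp only [SimpleGraph.Walk.length_cons]
    split_ifs at ih ⊢ <;> omega

theorem reach {k : ℕ} (hk : 0 < k) (u : Vt k) : ∃ i, ∃ hi : i < k,
    ∃ p : (G0 k).Walk (mk 0 i (by omega)) u, p.length ≤ k := by
  obtain ⟨⟨⟨t, ht⟩, ⟨i, hi⟩⟩, h⟩ := u
  by_cases e : i < k
  · obtain ⟨p, hp⟩ := up i e t (by omega)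
    exact ⟨i, e, p, hp.le.trans (by omega)⟩
  · have h2 : t < k := by simp [Fin.ext_iff] at h; omega
    obtain ⟨p, hp⟩ := up 0 hk t (by omega)
    exact ⟨0, hk, p.concat (by rw [adj_iff]; simp [mk]; omega), by simp [hp, h2]⟩

theorem result (C : ℕ) : ∃ (V : Type) (_ : Fintype V) (G : SimpleGraph V) (f : V → ℕ),
    G.Connected ∧ Nontrivial V ∧ Minimal (DomB G) f ∧
    ∀ S : Set V, Minimal (DomS G) S → C * S.ncard < ∑ v, f v := by
  classical
  obtain ⟨k, hk⟩ : ∃ k, k = 3 * C + 2 := ⟨_, rfl⟩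
  have k0 : 0 < k := by omega
  have hc : (G0 k).Connected := by
    rw [SimpleGraph.connected_iff_exists_forall_reachable]
    refine ⟨mk 0 0 (by omega), fun u => ?_⟩
    obtain ⟨i, hi, p, -⟩ := reach k0 u
    refine SimpleGraph.Reachable.trans ?_ ⟨p⟩
    by_cases e : i = 0
    · subst e; rfl
    · exact SimpleGraph.Adj.reachable (by rw [adj_iff]; simp [mk]; omega)
  have hl : ∀ (v : Vt k) i (hi : i < k), k + (if i = v.1.2.val then 0 else 1) ≤
      v.1.1.val + (G0 k).dist v (mk k i (by omega)) := by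
    intro v i hi
    obtain ⟨p, hp⟩ := hc.exists_walk_length_eq_dist v (mk k i (by omega))
    have := low v.1.2.val p
    rw [hp, if_pos rfl] at this
    exact this
  let f : Vt k → ℕ := fun v => if v.1.1.val = 0 ∧ v.1.2.val < k then k else 0
  refine ⟨Vt k, inferInstance, G0 k, f, hc, ⟨mk 0 0 (by omega), mk 1 0 (by omega), by
    simp [mk, Fin.ext_iff]⟩, ⟨⟨fun v => ?_, fun u => ?_⟩, fun g hg hgf v => ?_⟩, fun S hS => ?_⟩
  · simp only [f]
    split_ifs with e
    · exact ⟨mk k v.1.2.val (by omega), by have := hl v _ e.2; omega⟩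
    · exact ⟨v, Nat.zero_le _⟩
  · obtain ⟨i, hi, p, hp⟩ := reach k0 u
    exact ⟨mk 0 i (by omega), by simp [f, mk, hi]; omega,
      (SimpleGraph.dist_le p).trans (by simpa [f, mk, hi] using hp)⟩
  · by_cases e : v.1.1.val = 0 ∧ v.1.2.val < k
    · obtain ⟨w, h1, h2⟩ := hg.2 (mk k v.1.2.val (by omega) : Vt k)
      have h3 := hl w _ e.2
      have h4 := hgf w
      simp only [f] at h4 ⊢
      rw [if_pos e]
      split_ifs at h3 h4 with e1 e2 <;> try omega
      have : w = v := Subtype.ext (Prod.ext (Fin.ext (by omega)) (Fin.ext e1.symm))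
      subst this; omega
    · simp only [f, if_neg e, Nat.zero_le]
  · have h1 : k * k ≤ ∑ v, f v := by
      let m : Fin k → Vt k := fun i => mk 0 i (by omega)
      have hm : Function.Injective m := fun a b h => Fin.ext (congrArg (·.1.2.val) h)
      calc k * k = ∑ v ∈ univ.image m, f v := by
            rw [sum_image fun a _ b _ h => hm h]; simp [f, m, mk]
        _ ≤ _ := sum_le_sum_of_subset (subset_univ _)
    have h2 : ∀ t (ht : t < k), ∃ v ∈ S, v.1.1.val = t := by
      intro t ht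
      rcases hS.1 (mk t k (by omega)) with h | ⟨v, hv, h⟩
      · exact ⟨_, h, rfl⟩
      · rw [adj_iff] at h
        simp only [mk] at h
        exact ⟨v, hv, by omega⟩
    have h3 : ∀ a ∈ S, ∀ b ∈ S, a.1.1 = b.1.1 → a.1.1.val + 1 < k → a = b := by
      intro a ha b hb e hlt
      by_contra hne
      have same : ∀ x y : Vt k, x.1.1.val = y.1.1.val → x = y ∨ (G0 k).Adj x y := fun x y h => by
        by_cases e : x.1.2.val = y.1.2.val
        · exact Or.inl (Subtype.ext (Prod.ext (Fin.ext h) (Fin.ext e)))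
        · exact Or.inr (by rw [adj_iff]; exact Or.inl ⟨h, e⟩)
      have hd : DomS (G0 k) (S \ {a}) := by
        intro u
        have via : ∀ w ∈ S, w ≠ a → w.1.1.val = u.1.1.val →
            u ∈ S \ {a} ∨ ∃ v ∈ S \ {a}, (G0 k).Adj v u := fun w hw h1 h2 =>
          (same w u h2).elim (fun e => Or.inl (e ▸ ⟨hw, h1⟩)) fun e => Or.inr ⟨w, ⟨hw, h1⟩, e⟩
        by_cases e1 : u.1.1 = a.1.1
        · exact via b hb (Ne.symm hne) (by rw [e1, e])
        by_cases e2 : u.1.1.val < k
        · obtain ⟨w, hw, h⟩ := h2 _ e2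
          exact via w hw (by rintro rfl; exact e1 (Fin.ext h.symm)) h
        rcases hS.1 u with h | ⟨v, hv, h⟩
        · exact Or.inl ⟨h, by rintro rfl; exact e1 rfl⟩
        · refine Or.inr ⟨v, ⟨hv, ?_⟩, h⟩
          rintro rfl
          rw [adj_iff] at h
          omega
      exact (hS.2 hd Set.sdiff_subset ha).2 rfl
    have h4 : S.ncard ≤ 3 * (k + 1) := by
      let g : Vt k → Fin 3 × Fin (k + 1) := fun v =>
        if v.1.1.val + 1 < k then (0, v.1.1) else if v.1.1.val < k then (1, v.1.2) else (2, v.1.2)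
      have := Set.ncard_le_ncard_of_injOn g (fun _ _ => Set.mem_univ _) (s := S) (fun a ha b hb e => by
        have := a.1.1.2
        have := b.1.1.2
        simp only [g] at e
        split_ifs at e with e1 e2 <;> simp only [Prod.mk.injEq] at e <;>
          first
          | exact h3 a ha b hb e.2 e1
          | exact absurd e.1 (by decide)
          | exact Subtype.ext (Prod.ext (Fin.ext (by omega)) e.2)) Set.finite_univ
      simpa [Set.ncard_univ] using this
    subst hk
    nlinarith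

end Pool.Agent.Results.MP_9b093e_co.Unbounded
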